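import Pool.Agent.H95.FI.Defs

open MvPolynomial

namespace H53.FI
open H95.FG H95.FI

theorem t_RKR : S_RKR := by
  intro n s A z0 Y0 z Y h
  set P : Matrix (Fin (s + 1)) (Fin s) ℂ := Matrix.of fun i j => AA A (z i) (Y0 j) with hP
  set Q : Matrix (Fin s) (Fin (s + 1)) ℂ := Matrix.of fun i j => AA A (z0 i) (Y j) with hQ
  have hfac : VM A z Y = (P * (VM A z0 Y0)⁻¹) * Q := by
    ext i j
    rw [Matrix.mul_apply]
    simp only [Matrix.mul_apply]
    have e1 : VM A z Y i j = RR A z0 Y0 (z i) (Y j) := by
      simp only [VM, Matrix.of_apply]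
      exact h i j
    rw [e1]
    simp only [RR, hP, hQ, Matrix.of_apply]
    refine Finset.sum_congr rfl ?_
    intro k _
    rw [Finset.sum_mul]
  by_contra hdet
  have hu : IsUnit (VM A z Y) := by
    rw [Matrix.isUnit_iff_isUnit_det]
    exact isUnit_iff_ne_zero.2 hdet
  have h1 : (VM A z Y).rank = s + 1 := by
    have := Matrix.rank_of_isUnit (VM A z Y) hu
    simpa using this
  have h2 : (VM A z Y).rank ≤ s := by
    rw [hfac]
    refine (Matrix.rank_mul_le_right _ _).trans ?_
    have := Matrix.rank_le_height Q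
    simpa using this
  omega

end H53.FI
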